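import Pool.Agent.TH112.BL.Defs

set_option autoImplicit false

namespace Pool.Agent.TH112.BL

open Finset Filter

theorem chebJ5_sum (i : ℕ) :
    ∑ p ∈ QD i (i + 1), Real.log p / 2 ^ i + 2 * ∑ p ∈ QD (i + 1) (i + 2), Real.log p / 2 ^ (i + 1)
      = (Chebyshev.theta ((2 ^ (i + 2) : ℕ) : ℝ) - Chebyshev.theta ((2 ^ i : ℕ) : ℝ)) / 2 ^ i := by
  have hdisj : ∀ a b c : ℕ, a ≤ b → b ≤ c → (∑ p ∈ (Ioc 0 c).filter Nat.Prime, Real.log p) =
      ∑ p ∈ (Ioc 0 a).filter Nat.Prime, Real.log p +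
      (∑ p ∈ (Ioc a b).filter Nat.Prime, Real.log p +
      ∑ p ∈ (Ioc b c).filter Nat.Prime, Real.log p) := by
    intro a b c hab hbc
    simp only [Finset.sum_filter]
    rw [← Finset.sum_Ioc_consecutive (fun a : ℕ => if Nat.Prime a then Real.log (a : ℝ) else 0)
      (Nat.zero_le a) (hab.trans hbc),
      ← Finset.sum_Ioc_consecutive (fun a : ℕ => if Nat.Prime a then Real.log (a : ℝ) else 0)
      hab hbc]
  have h1 : 2 ^ i ≤ 2 ^ (i + 1) := Nat.pow_le_pow_right (by norm_num) (by omega)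
  have h2 : 2 ^ (i + 1) ≤ 2 ^ (i + 2) := Nat.pow_le_pow_right (by norm_num) (by omega)
  unfold Chebyshev.theta QD
  rw [Nat.floor_natCast, Nat.floor_natCast, hdisj _ _ _ h1 h2, ← Finset.sum_div, ← Finset.sum_div]
  have : (2 : ℝ) ^ (i + 1) = 2 * 2 ^ i := by ring
  rw [this]
  field_simp
  ring

theorem chebJ5_pow : ∀ i : ℕ, 16 ≤ i → 169 * (i + 3) ^ 2 ≤ 2 ^ i := by
  intro i hi
  induction i, hi using Nat.le_induction with
  | base => norm_num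
  | succ n hn ih =>
    have : 169 * (n + 1 + 3) ^ 2 ≤ 2 * (169 * (n + 3) ^ 2) := by nlinarith
    calc 169 * (n + 1 + 3) ^ 2 ≤ 2 * (169 * (n + 3) ^ 2) := this
      _ ≤ 2 * 2 ^ n := by omega
      _ = 2 ^ (n + 1) := by ring

theorem cheb : ∃ i₀ : ℕ, ∀ i : ℕ, i₀ ≤ i → (1 : ℝ) ≤
    ∑ p ∈ QD i (i + 1), Real.log p / 2 ^ i + 2 * ∑ p ∈ QD (i + 1) (i + 2), Real.log p / 2 ^ (i + 1) := by
  refine ⟨16, fun i hi => ?_⟩
  rw [chebJ5_sum]
  have hpos : (0 : ℝ) < 2 ^ i := by positivity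
  rw [le_div_iff₀ hpos, one_mul]
  have h1 := Chebyshev.theta_ge (2 ^ (i + 2))
  have h2 := Chebyshev.theta_le_log4_mul_x (x := ((2 ^ i : ℕ) : ℝ)) (by positivity)
  obtain ⟨s, hs⟩ : ∃ s : ℝ, s = Real.sqrt (2 ^ i) := ⟨_, rfl⟩
  have hs2 : s * s = 2 ^ i := by rw [hs, Real.mul_self_sqrt hpos.le]
  have hs13 : 13 * ((i : ℝ) + 3) ≤ s := by
    rw [hs]
    refine Real.le_sqrt_of_sq_le ?_
    have h3 : ((169 * (i + 3) ^ 2 : ℕ) : ℝ) ≤ ((2 ^ i : ℕ) : ℝ) := by exact_mod_cast chebJ5_pow i hi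
    push_cast at h3
    nlinarith
  have hsq : Real.sqrt ((2 ^ (i + 2) : ℕ) : ℝ) = 2 * s := by
    have h3 : ((2 ^ (i + 2) : ℕ) : ℝ) = (2 * s) * (2 * s) := by
      push_cast
      rw [pow_add, ← hs2]
      ring
    rw [h3, Real.sqrt_mul_self (by rw [hs]; positivity)]
  have hlog : Real.log ((2 ^ (i + 2) : ℕ) : ℝ) = ((i : ℝ) + 2) * Real.log 2 := by
    push_cast
    rw [Real.log_pow]
    push_cast
    ring
  have hlog1 : Real.log (((2 ^ (i + 2) : ℕ) : ℝ) + 1) ≤ ((i : ℝ) + 3) * Real.log 2 := by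
    have h3 : (((2 ^ (i + 2) : ℕ) : ℝ) + 1) ≤ 2 ^ (i + 3) := by
      push_cast
      have : (1 : ℝ) ≤ 2 ^ (i + 2) := one_le_pow₀ (by norm_num)
      rw [pow_succ (2 : ℝ) (i + 2)]
      linarith
    have h4 := Real.log_le_log (by positivity) h3
    rw [Real.log_pow] at h4
    push_cast at h4 ⊢
    exact h4
  have hlog4 : Real.log 4 = 2 * Real.log 2 := by
    rw [show (4 : ℝ) = 2 ^ 2 by norm_num, Real.log_pow]
    push_cast
    ring
  rw [hsq, hlog] at h1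
  rw [hlog4] at h2
  have hl : Real.log 2 < 0.6931471808 := Real.log_two_lt_d9
  have hl' : 0.6931471803 < Real.log 2 := Real.log_two_gt_d9
  have hi0 : (0 : ℝ) ≤ i := Nat.cast_nonneg i
  have hs0 : 0 ≤ s := by linarith
  have hc1 : ((2 ^ (i + 2) : ℕ) : ℝ) = 4 * (s * s) := by
    push_cast
    rw [pow_add, hs2]
    ring
  have hc2 : ((2 ^ i : ℕ) : ℝ) = s * s := by
    push_cast
    rw [hs2]
  rw [hc1] at h1 hlog1 ⊢
  rw [hc2] at h2 ⊢
  rw [← hs2]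
  have e1 : ((i : ℝ) + 3) * Real.log 2 ≤ (s / 13) * 0.7 := by
    have : (i : ℝ) + 3 ≤ s / 13 := by linarith
    exact mul_le_mul this (by linarith) (by linarith) (by linarith)
  have e2 : 2 * (2 * s) * (((i : ℝ) + 2) * Real.log 2) ≤ 2 * (2 * s) * ((s / 13) * 0.7) := by
    refine mul_le_mul_of_nonneg_left ?_ (by linarith)
    refine le_trans ?_ e1
    exact mul_le_mul_of_nonneg_right (by linarith) (by linarith)
  have e3 : 4 * (s * s) * Real.log 2 - 2 * Real.log 2 * (s * s) ≥ 1.386 * (s * s) := by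
    nlinarith [mul_nonneg hs0 hs0]
  nlinarith [mul_nonneg hs0 hs0]

end Pool.Agent.TH112.BL
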